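import Pool.Agent.Helper32.B4.St

/-!
# B4, module ML: composition of slit maps
-/

set_option autoImplicit false

open Metric Set Filter Topology MeasureTheory
open scoped ComplexConjugate Interval

namespace Pool.Agent.Helper98.B4

open Pool.Agent.Helper32.B4 Pool.Agent.Helper32.DX Pool.Agent.Helper64.C3

theorem ml_c0 {θ θ' : ℝ → ℝ} {b : ℝ} (hb : b ≤ 1) (h : ∀ u, b < u → θ u = θ' u) :
    c0 θ b = c0 θ' b := by
  unfold c0
  congr 2
  apply intervalIntegral.integral_congr_ae
  refine Filter.Eventually.of_forall (fun v hv => ?_)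
  rw [uIoc_of_le hb] at hv
  unfold ee
  rw [h v hv.1]

theorem ml_c1 {θ θ' : ℝ → ℝ} {b : ℝ} (hb : b ≤ 1) (h : ∀ u, b < u → θ u = θ' u) :
    c1 θ b = c1 θ' b := by
  unfold c1
  congr 1
  apply intervalIntegral.integral_congr_ae
  refine Filter.Eventually.of_forall (fun v hv => ?_)
  rw [uIoc_of_le hb] at hv
  unfold ee
  rw [h v hv.1]

theorem ml_c2 {θ θ' : ℝ → ℝ} {b : ℝ} (hb : b ≤ 1) (h : ∀ u, b < u → θ u = θ' u) :
    c2 θ b = c2 θ' b := by
  unfold c2
  congr 2
  apply intervalIntegral.integral_congr_ae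
  refine Filter.Eventually.of_forall (fun v hv => ?_)
  rw [uIoc_of_le hb] at hv
  have e1 : c0 θ v = c0 θ' v := ml_c0 hv.2 (fun u hu => h u (hv.1.trans hu))
  have e2 : ee θ v = ee θ' v := by
    unfold ee
    rw [h v hv.1]
  simp only [e1, e2]

theorem ml_id (k : ℕ) (hk : k ≠ 0) : ac k (fun z : ℂ => z) = 0 := by
  have h1 : AA (fun z : ℂ => z) = fun _ => (1 : ℂ) := by
    funext z
    unfold AA
    have hd : deriv (fun z : ℂ => z) 0 = 1 := by simp
    rw [hd]
    by_cases hz : z = 0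
    · subst hz
      rw [dslope_same, hd]
      norm_num
    · rw [dslope_of_ne _ hz, slope_def_field]
      simp [hz]
  unfold ac
  rw [h1]
  unfold coeff
  rw [iteratedDeriv_const]
  simp [hk]

theorem hML : StEV → StSL → StST → StML := by
  intro hEV hSL hST a t m ha0 hstep
  induction m with
  | zero =>
    refine ⟨fun z => z, ⟨differentiableOn_id, fun z hz => hz, rfl⟩, fun x _ y _ h => h, ?_, ?_, ?_, ?_⟩
    · simp [ha0]
    · rw [ml_id 1 (by norm_num), ha0]
      simp [c0]
    · rw [ml_id 2 (by norm_num), ha0]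
      simp [c1]
    · rw [ml_id 3 (by norm_num), ha0]
      simp [c2]
  | succ m ih =>
    obtain ⟨H, hH, hHi, hHd, h1, h2, h3⟩ := ih (fun i hi => hstep i (by omega))
    have hle1 : ∀ k, k ≤ m + 1 → a k ≤ 1 := by
      intro k
      induction k with
      | zero => intro _; rw [ha0]
      | succ k ihk => intro h; exact (hstep k (by omega)).2.trans (ihk (by omega))
    have hm1 := (hstep m (by omega)).1
    have hm2 := (hstep m (by omega)).2
    have hm0 : 0 < a m := lt_of_lt_of_le hm1 hm2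
    set q : ℝ := a (m + 1) / a m with hq
    have hq0 : 0 < q := div_pos hm1 hm0
    have hq1 : q ≤ 1 := (div_le_one hm0).2 hm2
    have hqm : q * a m = a (m + 1) := div_mul_cancel₀ _ hm0.ne'
    set e : ℂ := Complex.exp ((t m : ℂ) * Complex.I) with he
    have hen : ‖e‖ = 1 := by rw [he, Complex.norm_exp_ofReal_mul_I]
    obtain ⟨ψ, hψ, hψi, hψd, hψr⟩ := hSL q e hq0 hq1 hen
    have hself : SelfMap (fun z => ψ (H z)) := by
      refine ⟨hψ.1.comp hH.1 hH.2.1, hψ.2.1.comp hH.2.1, ?_⟩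
      show ψ (H 0) = 0
      rw [hH.2.2, hψ.2.2]
    have hinj : InjOn (fun z => ψ (H z)) (ball 0 1) := hψi.comp hHi hH.2.1
    have hmem0 : ball (0 : ℂ) 1 ∈ 𝓝 (0 : ℂ) := isOpen_ball.mem_nhds (by simp)
    have hder : deriv (fun z => ψ (H z)) 0 = ((q * a m : ℝ) : ℂ) := by
      have d1 : HasDerivAt H (a m : ℂ) 0 := by
        rw [← hHd]
        exact (hH.1.differentiableAt hmem0).hasDerivAt
      have d2 : HasDerivAt ψ (q : ℂ) (H 0) := by
        rw [hH.2.2, ← hψd]
        exact (hψ.1.differentiableAt hmem0).hasDerivAt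
      have d3 := (d2.comp (0 : ℂ) d1).deriv
      rw [show (fun z => ψ (H z)) = ψ ∘ H from rfl, d3]
      push_cast
      rfl
    obtain ⟨s1, s2, s3⟩ := hST q (a m) e H (fun z => ψ (H z)) hq0 hq1 hm0 hen hH hHi hHd hself hinj
      hder (fun z hz => hψr (H z) (hH.2.1 hz))
    have hstepm : ∀ i < m + 1, a (i + 1) ≤ a i := fun i hi => (hstep i hi).2
    obtain ⟨v1, v2, v3⟩ := hEV (stepf a t (m + 1)) (stepf_meas _ _ _) (a (m + 1)) (a m) (t m)
      hm1.le hm2 (hle1 m (by omega)) (fun u hu => stepf_of_mem hstepm (by omega) hu)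
    have hagree : ∀ u, a m < u → stepf a t (m + 1) u = stepf a t m u := by
      intro u hu
      unfold stepf
      rw [Finset.sum_range_succ, indicator_of_notMem, add_zero]
      rintro ⟨_, h⟩
      linarith
    have g0 := ml_c0 (hle1 m (by omega)) hagree
    have g1 := ml_c1 (hle1 m (by omega)) hagree
    have g2 := ml_c2 (hle1 m (by omega)) hagree
    rw [← he] at v1 v2 v3
    rw [g0] at v1 v3
    rw [g1] at v2
    rw [g2] at v3
    have hqmC : (q : ℂ) * (a m : ℂ) = (a (m + 1) : ℂ) := by exact_mod_cast hqm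
    rw [hqmC] at s1 s2 s3
    have r1 : ac 1 (fun z => ψ (H z)) = c0 (stepf a t (m + 1)) (a (m + 1)) := by
      rw [s1, v1, h1]
    refine ⟨fun z => ψ (H z), hself, hinj, ?_, r1, ?_, ?_⟩
    · rw [hder, hqm]
    · rw [s2, v2, h2]
    · rw [s3, v3, h3, r1, h1]

end Pool.Agent.Helper98.B4
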